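import Pool.Agent.P8H38.SB.Stm

/-!
Package TAUB of project SB.
-/

set_option autoImplicit false

open Filter Topology MeasureTheory Set

namespace Pool.Agent.P8H20.SB

open Pool.Agent.P8H38.SB

variable {ι : Type} {g b : ι → ℝ}

theorem countable_of (h : Adm g b) : Countable ι := by
  rw [← Set.countable_univ_iff]
  have : (Set.univ : Set ι) = ⋃ n : ℕ, {i | g i ≤ n} := by
    ext i
    simp only [Set.mem_univ, Set.mem_iUnion, true_iff]
    exact exists_nat_ge (g i)
  rw [this]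
  exact Set.countable_iUnion fun n => (h.fin n).countable

theorem wt_nonneg (h : Adm g b) (i : ι) : 0 ≤ wt g b i := by
  unfold wt
  have := h.nonneg i
  positivity

theorem wt_mul (g b : ι → ℝ) (i : ι) : b i = g i ^ 2 * wt g b i + wt g b i / 4 := by
  unfold wt
  have : (0 : ℝ) < 1 / 4 + g i ^ 2 := by positivity
  field_simp
  ring

theorem term_bd (h : Adm g b) (i : ι) (y : ℝ) :
    0 ≤ (1 - Real.cos (g i * y)) * wt g b i ∧ (1 - Real.cos (g i * y)) * wt g b i ≤ 2 * wt g b i := by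
  have h1 := Real.cos_le_one (g i * y)
  have h2 := Real.neg_one_le_cos (g i * y)
  have h3 := wt_nonneg h i
  constructor
  · exact mul_nonneg (by linarith) h3
  · exact mul_le_mul_of_nonneg_right (by linarith) h3

theorem term_summable (h : Adm g b) (y : ℝ) : Summable fun i => (1 - Real.cos (g i * y)) * wt g b i :=
  Summable.of_nonneg_of_le (fun i => (term_bd h i y).1) (fun i => (term_bd h i y).2) (h.sum.mul_left 2)

theorem Ps_cont (h : Adm g b) : Continuous (Ps g b) := by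
  unfold Ps
  refine continuous_tsum (fun i => by fun_prop) (h.sum.mul_left 2) fun i y => ?_
  rw [Real.norm_of_nonneg (term_bd h i y).1]
  exact (term_bd h i y).2

theorem Ps_nonneg (h : Adm g b) (y : ℝ) : 0 ≤ Ps g b y :=
  tsum_nonneg fun i => (term_bd h i y).1

theorem Ps_le (h : Adm g b) (y : ℝ) : Ps g b y ≤ 2 * ∑' i, wt g b i := by
  unfold Ps
  rw [← tsum_mul_left]
  exact (term_summable h y).tsum_le_tsum (fun i => (term_bd h i y).2) (h.sum.mul_left 2)

theorem NN_summable (h : Adm g b) (T : ℝ) : Summable fun i => if g i ≤ T then b i else 0 := by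
  apply summable_of_hasFiniteSupport
  refine (h.fin T).subset fun i hi => ?_
  rw [Function.mem_support] at hi
  by_contra hn
  exact hi (if_neg hn)

/-- linear bound for `Ps` -/
theorem Ps_lin (h : Adm g b) {L : ℝ} (hL : Tendsto (fun y : ℝ => Ps g b y / y) (𝓝[>] 0) (𝓝 L)) :
    ∃ K : ℝ, 0 ≤ K ∧ ∀ y : ℝ, 0 < y → Ps g b y ≤ K * y := by
  have h1 : ∀ᶠ y in 𝓝[>] (0 : ℝ), Ps g b y / y < L + 1 := hL.eventually_lt_const (by linarith)
  rw [eventually_nhdsWithin_iff, Metric.eventually_nhds_iff] at h1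
  obtain ⟨δ, hδ, h1⟩ := h1
  set W := ∑' i, wt g b i with hW
  have hW0 : 0 ≤ W := tsum_nonneg fun i => wt_nonneg h i
  refine ⟨|L + 1| + 2 * W / δ, by positivity, fun y hy => ?_⟩
  by_cases hyd : y < δ
  · have h2 := h1 (y := y) (by rw [Real.dist_eq, sub_zero, abs_of_pos hy]; exact hyd) hy
    rw [div_lt_iff₀ hy] at h2
    have h3 : (L + 1) * y ≤ |L + 1| * y := mul_le_mul_of_nonneg_right (le_abs_self _) hy.le
    have h4 : 0 ≤ 2 * W / δ * y := by positivity
    linarith
  · push Not at hyd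
    have h2 := Ps_le h y
    have h3 : 2 * W ≤ 2 * W / δ * y := by
      rw [div_mul_eq_mul_div, le_div_iff₀ hδ]
      exact mul_le_mul_of_nonneg_left hyd (by positivity)
    have h4 : 0 ≤ |L + 1| * y := by positivity
    linarith

/-- smooth weights -/
theorem smooth (hF : S_FOU) (h : Adm g b) {L : ℝ}
    (hL : Tendsto (fun y : ℝ => Ps g b y / y) (𝓝[>] 0) (𝓝 L)) (φ : ℝ → ℝ)
    (hφ1 : ContDiff ℝ ((⊤ : ℕ∞) : WithTop ℕ∞) φ) (hφ2 : HasCompactSupport φ) (hφ3 : ∀ x, φ (-x) = φ x) :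
    Tendsto (fun T : ℝ => (∑' i, φ (g i / T) * b i) / T) atTop
      (𝓝 (L * (2 / Real.pi * ∫ x in Ioi (0 : ℝ), φ x))) := by
  have := countable_of h
  obtain ⟨k, hk1, hk2, hk3, hk4⟩ := hF φ hφ1 hφ2 hφ3
  obtain ⟨K, hK0, hK⟩ := Ps_lin h hL
  obtain ⟨C, hC⟩ := hφ2.exists_bound_of_continuous hφ1.continuous
  have hC0 : 0 ≤ C := (norm_nonneg _).trans (hC 0)
  set W := ∑' i, wt g b i with hW
  have hW0 : 0 ≤ W := tsum_nonneg fun i => wt_nonneg h i
  -- the identity
  have hid : ∀ T : ℝ, 0 < T → HasSum (fun i => φ (g i / T) * (g i ^ 2 * wt g b i))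
      (T ^ 2 * ∫ ξ in Ioi (0 : ℝ), k ξ * Ps g b (ξ / T)) := by
    intro T hT
    set F : ι → ℝ → ℝ := fun i ξ => k ξ * ((1 - Real.cos (g i * (ξ / T))) * wt g b i) with hFdef
    have hFb : ∀ i ξ, ‖F i ξ‖ ≤ ‖k ξ‖ * (2 * wt g b i) := by
      intro i ξ
      rw [hFdef]
      simp only
      rw [norm_mul, Real.norm_of_nonneg (term_bd h i _).1]
      exact mul_le_mul_of_nonneg_left (term_bd h i _).2 (norm_nonneg _)
    have hFi : ∀ i, Integrable (F i) (volume.restrict (Ioi 0)) := by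
      intro i
      refine (hk1.norm.mul_const (2 * wt g b i)).mono' ?_ (Eventually.of_forall fun ξ => hFb i ξ)
      apply hk1.aestronglyMeasurable.mul
      apply Continuous.aestronglyMeasurable
      fun_prop
    have hsum : Summable fun i => ∫ ξ in Ioi (0 : ℝ), ‖F i ξ‖ := by
      refine Summable.of_nonneg_of_le (fun i => integral_nonneg fun ξ => norm_nonneg _)
        (fun i => ?_) (h.sum.mul_left (2 * ∫ ξ in Ioi (0 : ℝ), ‖k ξ‖))
      calc ∫ ξ in Ioi (0 : ℝ), ‖F i ξ‖ ≤ ∫ ξ in Ioi (0 : ℝ), ‖k ξ‖ * (2 * wt g b i) :=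
            integral_mono (hFi i).norm (hk1.norm.mul_const _) fun ξ => hFb i ξ
        _ = 2 * (∫ ξ in Ioi (0 : ℝ), ‖k ξ‖) * wt g b i := by
            rw [integral_mul_const]
            ring
    have h1 := hasSum_integral_of_summable_integral_norm hFi hsum
    have h2 : ∀ ξ, ∑' i, F i ξ = k ξ * Ps g b (ξ / T) := by
      intro ξ
      rw [hFdef]
      simp only
      rw [tsum_mul_left]
      rfl
    simp only [h2] at h1
    have h3 := h1.mul_left (T ^ 2)
    have h6 : (fun i => φ (g i / T) * (g i ^ 2 * wt g b i)) =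
        fun i => T ^ 2 * ∫ ξ in Ioi (0 : ℝ), F i ξ := by
     ext i
     have h4 := hk3 (g i / T) (div_pos (h.pos i) hT)
     have h5 : ∫ ξ in Ioi (0 : ℝ), F i ξ = wt g b i * ((g i / T) ^ 2 * φ (g i / T)) := by
      rw [h4, ← integral_const_mul]
      congr 1
      ext ξ
      rw [hFdef]
      simp only
      have : g i * (ξ / T) = g i / T * ξ := by ring
      rw [this]
      ring
     rw [h5]
     field_simp
    rw [h6]
    exact h3
  -- the limit of the main part
  have hlim : Tendsto (fun T : ℝ => ∫ ξ in Ioi (0 : ℝ), k ξ * (T * Ps g b (ξ / T))) atTop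
      (𝓝 (∫ ξ in Ioi (0 : ℝ), k ξ * (ξ * L))) := by
    apply tendsto_integral_filter_of_dominated_convergence (fun ξ => ‖ξ * k ξ‖ * K)
    · filter_upwards [eventually_gt_atTop (0 : ℝ)] with T hT
      apply hk1.aestronglyMeasurable.mul
      apply Continuous.aestronglyMeasurable
      exact continuous_const.mul ((Ps_cont h).comp (continuous_id.div_const T))
    · filter_upwards [eventually_gt_atTop (0 : ℝ)] with T hT
      refine (ae_restrict_iff' measurableSet_Ioi).2 (Eventually.of_forall fun ξ hξ => ?_)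
      have hξ0 : (0 : ℝ) < ξ := hξ
      rw [norm_mul, norm_mul, Real.norm_of_nonneg (Ps_nonneg h _), Real.norm_of_nonneg hT.le, norm_mul,
        Real.norm_of_nonneg hξ0.le]
      have h1 := hK (ξ / T) (div_pos hξ0 hT)
      have h2 : T * Ps g b (ξ / T) ≤ K * ξ := by
        calc T * Ps g b (ξ / T) ≤ T * (K * (ξ / T)) := mul_le_mul_of_nonneg_left h1 hT.le
          _ = K * ξ := by field_simp
      calc ‖k ξ‖ * (T * Ps g b (ξ / T)) ≤ ‖k ξ‖ * (K * ξ) :=
            mul_le_mul_of_nonneg_left h2 (norm_nonneg _)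
        _ = ξ * ‖k ξ‖ * K := by ring
    · exact hk2.norm.mul_const K
    · refine (ae_restrict_iff' measurableSet_Ioi).2 (Eventually.of_forall fun ξ hξ => ?_)
      have hξ0 : (0 : ℝ) < ξ := hξ
      apply Tendsto.const_mul
      have h1 : Tendsto (fun T : ℝ => ξ / T) atTop (𝓝[>] 0) := by
        rw [tendsto_nhdsWithin_iff]
        refine ⟨tendsto_const_nhds.div_atTop tendsto_id, ?_⟩
        filter_upwards [eventually_gt_atTop (0 : ℝ)] with T hT
        exact div_pos hξ0 hT
      have h2 := (hL.comp h1).const_mul ξ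
      refine h2.congr' ?_
      filter_upwards [eventually_gt_atTop (0 : ℝ)] with T hT
      simp only [Function.comp]
      field_simp
  have hlimval : ∫ ξ in Ioi (0 : ℝ), k ξ * (ξ * L) = L * (2 / Real.pi * ∫ x in Ioi (0 : ℝ), φ x) := by
    rw [← hk4, ← integral_const_mul]
    congr 1
    ext ξ
    ring
  rw [hlimval] at hlim
  -- the small part
  have hbd : ∀ T : ℝ, ∀ i, ‖φ (g i / T) * (wt g b i / 4)‖ ≤ C / 4 * wt g b i := by
    intro T i
    rw [norm_mul, Real.norm_of_nonneg (by have := wt_nonneg h i; positivity : 0 ≤ wt g b i / 4)]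
    have h1 := hC (g i / T)
    have h2 := wt_nonneg h i
    calc ‖φ (g i / T)‖ * (wt g b i / 4) ≤ C * (wt g b i / 4) :=
          mul_le_mul_of_nonneg_right h1 (by positivity)
      _ = C / 4 * wt g b i := by ring
  have hsm : ∀ T : ℝ, Summable fun i => φ (g i / T) * (wt g b i / 4) := fun T =>
    Summable.of_norm_bounded (h.sum.mul_left (C / 4)) (hbd T)
  have hsmb : ∀ T : ℝ, ‖∑' i, φ (g i / T) * (wt g b i / 4)‖ ≤ C / 4 * W := by
    intro T
    rw [hW, ← tsum_mul_left]
    exact tsum_of_norm_bounded (h.sum.mul_left (C / 4)).hasSum (hbd T)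
  have hlim2 : Tendsto (fun T : ℝ => (∑' i, φ (g i / T) * (wt g b i / 4)) / T) atTop (𝓝 0) := by
    rw [tendsto_zero_iff_norm_tendsto_zero]
    have h1 : Tendsto (fun T : ℝ => C / 4 * W / T) atTop (𝓝 0) :=
      tendsto_const_nhds.div_atTop tendsto_id
    refine squeeze_zero' (Eventually.of_forall fun T => norm_nonneg _) ?_ h1
    filter_upwards [eventually_gt_atTop (0 : ℝ)] with T hT
    rw [norm_div, Real.norm_of_nonneg hT.le]
    exact div_le_div_of_nonneg_right (hsmb T) hT.le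
  have h3 := hlim.add hlim2
  rw [add_zero] at h3
  refine h3.congr' ?_
  filter_upwards [eventually_gt_atTop (0 : ℝ)] with T hT
  have h4 : ∑' i, φ (g i / T) * b i = T ^ 2 * (∫ ξ in Ioi (0 : ℝ), k ξ * Ps g b (ξ / T)) +
      ∑' i, φ (g i / T) * (wt g b i / 4) := by
    rw [← (hid T hT).tsum_eq, ← (hid T hT).summable.tsum_add (hsm T)]
    congr 1
    ext i
    conv_lhs => rw [wt_mul g b i]
    ring
  have h5 : ∫ ξ in Ioi (0 : ℝ), k ξ * (T * Ps g b (ξ / T)) = T * ∫ ξ in Ioi (0 : ℝ), k ξ * Ps g b (ξ / T) := by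
    rw [← integral_const_mul]
    congr 1
    ext ξ
    ring
  rw [h4, h5]
  field_simp

theorem taub : S_FOU → S_TAUB := by
  intro hF ι g b h L hL
  have hL0 : 0 ≤ L := by
    refine ge_of_tendsto hL ?_
    rw [eventually_nhdsWithin_iff]
    exact Eventually.of_forall fun y hy => div_nonneg (Ps_nonneg h y) (le_of_lt hy)
  have hπ := Real.pi_pos
  set M : ℝ := 2 / Real.pi * L with hM
  have hM0 : 0 ≤ M := by positivity
  have hsupp : ∀ (φ : ContDiffBump (0 : ℝ)) (T : ℝ), 0 < T → Summable fun i => φ (g i / T) * b i := by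
    intro φ T hT
    apply summable_of_hasFiniteSupport
    refine (h.fin (φ.rOut * T)).subset fun i hi => ?_
    rw [Function.mem_support] at hi
    by_contra hn
    apply hi
    simp only [Set.mem_ofPred_eq, not_le] at hn
    rw [φ.zero_of_le_dist, zero_mul]
    rw [dist_zero_right, Real.norm_of_nonneg (div_nonneg (h.pos i).le hT.le), le_div_iff₀ hT]
    exact hn.le
  rw [Metric.tendsto_atTop]
  intro η hη
  -- choose `ε`
  obtain ⟨ε, hε0, hε1, hεη⟩ : ∃ ε : ℝ, 0 < ε ∧ ε < 1 ∧ M * ε < η / 2 := by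
    refine ⟨min (1 / 2) (η / (4 * (M + 1))), by positivity, ?_, ?_⟩
    · exact lt_of_le_of_lt (min_le_left _ _) (by norm_num)
    · calc M * min (1 / 2) (η / (4 * (M + 1))) ≤ M * (η / (4 * (M + 1))) :=
            mul_le_mul_of_nonneg_left (min_le_right _ _) hM0
        _ ≤ (M + 1) * (η / (4 * (M + 1))) :=
            mul_le_mul_of_nonneg_right (by linarith) (by positivity)
        _ = η / 4 := by field_simp
        _ < η / 2 := by linarith
  let φ₁ : ContDiffBump (0 : ℝ) := ⟨1 - ε, 1, by linarith, by linarith⟩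
  let φ₂ : ContDiffBump (0 : ℝ) := ⟨1, 1 + ε, by linarith, by linarith⟩
  have hcd : ∀ φ : ContDiffBump (0 : ℝ), ContDiff ℝ ((⊤ : ℕ∞) : WithTop ℕ∞) φ := fun φ => φ.contDiff
  have l1 := smooth hF h hL φ₁ (hcd φ₁) φ₁.hasCompactSupport (fun x => φ₁.neg x)
  have l2 := smooth hF h hL φ₂ (hcd φ₂) φ₂.hasCompactSupport (fun x => φ₂.neg x)
  have hint : ∀ φ : ContDiffBump (0 : ℝ), IntegrableOn φ (Ioi 0) := fun φ =>
    (φ.continuous.integrable_of_hasCompactSupport φ.hasCompactSupport).integrableOn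
  -- the integrals
  have i1 : 1 - ε ≤ ∫ x in Ioi (0 : ℝ), φ₁ x := by
    have h1 : ∫ x in Ioc (0 : ℝ) (1 - ε), φ₁ x = 1 - ε := by
      have : ∫ x in Ioc (0 : ℝ) (1 - ε), φ₁ x = ∫ x in Ioc (0 : ℝ) (1 - ε), (1 : ℝ) := by
        refine setIntegral_congr_fun measurableSet_Ioc fun x hx => ?_
        apply φ₁.one_of_mem_closedBall
        rw [mem_closedBall_zero_iff, Real.norm_of_nonneg hx.1.le]
        exact hx.2
      rw [this]
      simp
      linarith
    rw [← h1]
    apply setIntegral_mono_set (hint φ₁)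
    · exact Eventually.of_forall fun x => φ₁.nonneg
    · exact (Set.Ioc_subset_Ioi_self).eventuallyLE
  have i2 : ∫ x in Ioi (0 : ℝ), φ₂ x ≤ 1 + ε := by
    have h1 : ∫ x in Ioi (0 : ℝ), φ₂ x = ∫ x in Ioc (0 : ℝ) (1 + ε), φ₂ x := by
      apply setIntegral_eq_of_subset_of_forall_sdiff_eq_zero measurableSet_Ioi Set.Ioc_subset_Ioi_self
      intro x hx
      have hx1 : (0 : ℝ) < x := hx.1
      have hx2 : 1 + ε < x := by
        by_contra hn
        push Not at hn
        exact hx.2 ⟨hx1, hn⟩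
      apply φ₂.zero_of_le_dist
      rw [dist_zero_right, Real.norm_of_nonneg hx1.le]
      exact hx2.le
    rw [h1]
    calc ∫ x in Ioc (0 : ℝ) (1 + ε), φ₂ x ≤ ∫ x in Ioc (0 : ℝ) (1 + ε), (1 : ℝ) := by
          apply setIntegral_mono_on ((hint φ₂).mono_set Set.Ioc_subset_Ioi_self) _ measurableSet_Ioc
            fun x _ => φ₂.le_one
          simp
      _ = 1 + ε := by
          simp
          linarith
  have e1 : M - η / 2 < L * (2 / Real.pi * ∫ x in Ioi (0 : ℝ), φ₁ x) := by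
    have : M * (1 - ε) ≤ M * ∫ x in Ioi (0 : ℝ), φ₁ x := mul_le_mul_of_nonneg_left i1 hM0
    have h2 : L * (2 / Real.pi * ∫ x in Ioi (0 : ℝ), φ₁ x) = M * ∫ x in Ioi (0 : ℝ), φ₁ x := by
      rw [hM]
      ring
    rw [h2]
    nlinarith
  have e2 : L * (2 / Real.pi * ∫ x in Ioi (0 : ℝ), φ₂ x) < M + η / 2 := by
    have : M * (∫ x in Ioi (0 : ℝ), φ₂ x) ≤ M * (1 + ε) := mul_le_mul_of_nonneg_left i2 hM0
    have h2 : L * (2 / Real.pi * ∫ x in Ioi (0 : ℝ), φ₂ x) = M * ∫ x in Ioi (0 : ℝ), φ₂ x := by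
      rw [hM]
      ring
    rw [h2]
    nlinarith
  have ev1 := l1.eventually_const_lt e1
  have ev2 := l2.eventually_lt_const e2
  obtain ⟨T0, hT0⟩ := eventually_atTop.1 (ev1.and (ev2.and (eventually_gt_atTop (0 : ℝ))))
  refine ⟨T0, fun T hT => ?_⟩
  obtain ⟨f1, f2, hTpos⟩ := hT0 T hT
  have c1 : ∑' i, φ₁ (g i / T) * b i ≤ NN g b T := by
    unfold NN
    apply (hsupp φ₁ T hTpos).tsum_le_tsum _ (NN_summable h T)
    intro i
    have hb := h.nonneg i
    split_ifs with hgi
    · calc φ₁ (g i / T) * b i ≤ 1 * b i := mul_le_mul_of_nonneg_right φ₁.le_one hb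
        _ = b i := one_mul _
    · push Not at hgi
      rw [φ₁.zero_of_le_dist, zero_mul]
      rw [dist_zero_right, Real.norm_of_nonneg (div_nonneg (h.pos i).le hTpos.le), le_div_iff₀ hTpos]
      show 1 * T ≤ g i
      linarith
  have c2 : NN g b T ≤ ∑' i, φ₂ (g i / T) * b i := by
    unfold NN
    apply (NN_summable h T).tsum_le_tsum _ (hsupp φ₂ T hTpos)
    intro i
    have hb := h.nonneg i
    split_ifs with hgi
    · rw [φ₂.one_of_mem_closedBall, one_mul]
      rw [mem_closedBall_zero_iff, Real.norm_of_nonneg (div_nonneg (h.pos i).le hTpos.le)]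
      show g i / T ≤ 1
      rw [div_le_one hTpos]
      exact hgi
    · exact mul_nonneg φ₂.nonneg hb
  have d1 : (∑' i, φ₁ (g i / T) * b i) / T ≤ NN g b T / T := div_le_div_of_nonneg_right c1 hTpos.le
  have d2 : NN g b T / T ≤ (∑' i, φ₂ (g i / T) * b i) / T := div_le_div_of_nonneg_right c2 hTpos.le
  rw [Real.dist_eq, abs_lt]
  constructor <;> linarith

end Pool.Agent.P8H20.SB
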