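import Pool.Agent.P8H38.SB.Stm
import Pool.Agent.P8H20.SB.Taub

/-!
Package ABEL of project SB.
-/

set_option autoImplicit false

open Filter Topology MeasureTheory Set

namespace Pool.Agent.P8H20.SB

open Pool.Agent.P8H38.SB

/-- the kernel -/
noncomputable def ff (x : ℝ) : ℝ := (1 - Real.cos x) / x ^ 2

/-- its derivative -/
noncomputable def fd (x : ℝ) : ℝ := (x * Real.sin x - 2 * (1 - Real.cos x)) / x ^ 3

theorem ff_nonneg (x : ℝ) : 0 ≤ ff x := by
  unfold ff
  have := Real.cos_le_one x
  apply div_nonneg (by linarith) (by positivity)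

theorem ff_half (x : ℝ) : ff x ≤ 1 / 2 := by
  unfold ff
  by_cases hx : x = 0
  · rw [hx]
    norm_num
  · have h1 := Real.one_sub_sq_div_two_le_cos (x := x)
    rw [div_le_iff₀ (by positivity)]
    linarith

theorem ff_two {x : ℝ} (hx : 0 < x) : ff x ≤ 2 / x ^ 2 := by
  unfold ff
  have := Real.neg_one_le_cos x
  apply div_le_div_of_nonneg_right (by linarith) (by positivity)

theorem ff_deriv {x : ℝ} (hx : x ≠ 0) : HasDerivAt ff (fd x) x := by
  have h1 : HasDerivAt (fun x : ℝ => 1 - Real.cos x) (Real.sin x) x := by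
    have := (Real.hasDerivAt_cos x).const_sub 1
    simpa using this
  have h2 : HasDerivAt (fun x : ℝ => x ^ 2) (2 * x) x := by
    have := hasDerivAt_pow 2 x
    simpa using this
  have h3 := h1.div h2 (pow_ne_zero 2 hx)
  have h4 : (Real.sin x * x ^ 2 - (1 - Real.cos x) * (2 * x)) / (x ^ 2) ^ 2 = fd x := by
    unfold fd
    field_simp
  rw [h4] at h3
  exact h3

theorem fd_bound {x : ℝ} (hx : 0 < x) : |fd x| ≤ 5 := by
  unfold fd
  rw [abs_div, abs_of_pos (pow_pos hx 3), div_le_iff₀ (pow_pos hx 3)]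
  by_cases h1 : x ≤ 1
  · have hs := Real.sin_bound (x := x) (by rw [abs_of_pos hx]; exact h1)
    have hc := Real.cos_bound (x := x) (by rw [abs_of_pos hx]; exact h1)
    rw [abs_of_pos hx] at hs hc
    rw [abs_le] at hs hc ⊢
    have hx3 : 0 < x ^ 3 := by positivity
    have hx4 : x ^ 4 ≤ x ^ 3 := pow_le_pow_of_le_one hx.le h1 (by norm_num)
    have hx6 : x ^ 6 ≤ x ^ 3 := pow_le_pow_of_le_one hx.le h1 (by norm_num)
    have e1 : x * Real.sin x ≤ x * (x - x ^ 3 / 6 + x ^ 5 / 100) :=
      mul_le_mul_of_nonneg_left (by linarith) hx.le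
    have e2 : x * (x - x ^ 3 / 6 - x ^ 5 / 100) ≤ x * Real.sin x :=
      mul_le_mul_of_nonneg_left (by linarith) hx.le
    have e3 : x * (x - x ^ 3 / 6 + x ^ 5 / 100) = x ^ 2 - x ^ 4 / 6 + x ^ 6 / 100 := by ring
    have e4 : x * (x - x ^ 3 / 6 - x ^ 5 / 100) = x ^ 2 - x ^ 4 / 6 - x ^ 6 / 100 := by ring
    rw [e3] at e1
    rw [e4] at e2
    have hx4p : 0 < x ^ 4 := by positivity
    have hx6p : 0 < x ^ 6 := by positivity
    constructor <;> linarith [hs.1, hs.2, hc.1, hc.2]
  · push Not at h1
    have hs1 := Real.sin_le_one x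
    have hs2 := Real.neg_one_le_sin x
    have hc1 := Real.cos_le_one x
    have hc2 := Real.neg_one_le_cos x
    have hx3 : x ≤ x ^ 3 := le_self_pow₀ h1.le (by norm_num)
    have hx3' : 1 ≤ x ^ 3 := by linarith
    have e1 : x * Real.sin x ≤ x * 1 := mul_le_mul_of_nonneg_left hs1 hx.le
    have e2 : x * (-1) ≤ x * Real.sin x := mul_le_mul_of_nonneg_left hs2 hx.le
    rw [abs_le]
    constructor <;> linarith

theorem fd_meas : Measurable fd := by
  unfold fd
  fun_prop

theorem ff_meas : Measurable ff := by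
  unfold ff
  fun_prop

/-- `u f(u)` -/
theorem GG_cont : Continuous fun u : ℝ => u * ff u := by
  rw [continuous_iff_continuousAt]
  intro u
  by_cases hu : u = 0
  · rw [hu]
    rw [ContinuousAt, zero_mul]
    rw [tendsto_zero_iff_norm_tendsto_zero]
    have h1 : Tendsto (fun u : ℝ => ‖u‖ * (1 / 2)) (𝓝 0) (𝓝 0) := by
      have : Tendsto (fun u : ℝ => ‖u‖ * (1 / 2)) (𝓝 0) (𝓝 (‖(0 : ℝ)‖ * (1 / 2))) :=
        (continuous_norm.mul continuous_const).tendsto 0
      simpa using this
    refine squeeze_zero (fun u => norm_nonneg _) (fun u => ?_) h1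
    rw [norm_mul, Real.norm_of_nonneg (ff_nonneg u)]
    exact mul_le_mul_of_nonneg_left (ff_half u) (norm_nonneg _)
  · exact continuousAt_id.mul (ff_deriv hu).continuousAt

theorem fd_integrable (X : ℝ) : IntegrableOn fd (Ioc 0 X) := by
  refine Measure.integrableOn_of_bounded (M := 5) (by simp) fd_meas.aestronglyMeasurable ?_
  refine (ae_restrict_iff' measurableSet_Ioc).2 (Eventually.of_forall fun u hu => ?_)
  rw [Real.norm_eq_abs]
  exact fd_bound hu.1

theorem ff_integrable (X : ℝ) : IntegrableOn ff (Ioc 0 X) := by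
  refine Measure.integrableOn_of_bounded (M := 1 / 2) (by simp) ff_meas.aestronglyMeasurable ?_
  refine Eventually.of_forall fun u => ?_
  rw [Real.norm_of_nonneg (ff_nonneg u)]
  exact ff_half u

theorem fdu_integrable (X : ℝ) : IntegrableOn (fun u => fd u * u) (Ioc 0 X) := by
  refine Measure.integrableOn_of_bounded (M := 5 * X) (by simp)
    (fd_meas.mul measurable_id).aestronglyMeasurable ?_
  refine (ae_restrict_iff' measurableSet_Ioc).2 (Eventually.of_forall fun u hu => ?_)
  rw [norm_mul, Real.norm_eq_abs, Real.norm_of_nonneg hu.1.le]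
  exact mul_le_mul (fd_bound hu.1) hu.2 hu.1.le (by norm_num)

/-- integration by parts -/
theorem parts (X : ℝ) (hX : 0 < X) :
    ff X * X - ∫ u in Ioc 0 X, fd u * u = ∫ u in Ioc 0 X, ff u := by
  have h1 : ∫ u in (0 : ℝ)..X, (ff u + fd u * u) = X * ff X - 0 * ff 0 := by
    apply intervalIntegral.integral_eq_sub_of_hasDerivAt_of_le hX.le (f := fun u => u * ff u)
      GG_cont.continuousOn
    · intro u hu
      have h2 := (hasDerivAt_id u).mul (ff_deriv (ne_of_gt hu.1))
      have h3 : (1 : ℝ) * ff u + id u * fd u = ff u + fd u * u := by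
        simp only [id]
        ring
      rw [h3] at h2
      exact h2
    · rw [intervalIntegrable_iff_integrableOn_Ioc_of_le hX.le]
      exact (ff_integrable X).add (fdu_integrable X)
  rw [intervalIntegral.integral_of_le hX.le,
    integral_add (ff_integrable X) (fdu_integrable X)] at h1
  linarith

/-- the fundamental theorem -/
theorem ftc {a X : ℝ} (ha : 0 < a) (haX : a ≤ X) :
    ff a = ff X - ∫ u in Ioc 0 X, (if a ≤ u then fd u else 0) := by
  have h1 : ∫ u in a..X, fd u = ff X - ff a := by
    apply intervalIntegral.integral_eq_sub_of_hasDerivAt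
    · intro u hu
      rw [Set.uIcc_of_le haX] at hu
      exact ff_deriv (ne_of_gt (lt_of_lt_of_le ha hu.1))
    · rw [intervalIntegrable_iff_integrableOn_Ioc_of_le haX]
      exact (fd_integrable X).mono_set (Set.Ioc_subset_Ioc_left ha.le)
  have h2 : ∫ u in Ioc 0 X, (if a ≤ u then fd u else 0) = ∫ u in a..X, fd u := by
    have e1 : (fun u => if a ≤ u then fd u else 0) = (Ici a).indicator fd := by
      ext u
      rw [Set.indicator_apply]
      rfl
    rw [e1, setIntegral_indicator measurableSet_Ici]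
    have e2 : Ioc 0 X ∩ Ici a = Icc a X := by
      ext u
      simp only [Set.mem_inter_iff, Set.mem_Ioc, Set.mem_Ici, Set.mem_Icc]
      constructor
      · rintro ⟨⟨_, h⟩, h'⟩
        exact ⟨h', h⟩
      · rintro ⟨h', h⟩
        exact ⟨⟨lt_of_lt_of_le ha h', h⟩, h'⟩
    rw [e2, integral_Icc_eq_integral_Ioc, intervalIntegral.integral_of_le haX]
  rw [h2, h1]
  ring

variable {ι : Type} {g b : ι → ℝ}

theorem NN_mono (h : Adm g b) : Monotone (NN g b) := by
  intro S T hST
  unfold NN
  apply (NN_summable h S).tsum_le_tsum _ (NN_summable h T)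
  intro i
  have := h.nonneg i
  split_ifs with h1 h2
  · exact le_rfl
  · exact absurd (h1.trans hST) h2
  · exact this
  · exact le_rfl

theorem NN_nonneg (h : Adm g b) (T : ℝ) : 0 ≤ NN g b T := by
  unfold NN
  apply tsum_nonneg
  intro i
  have := h.nonneg i
  split_ifs
  · exact this
  · exact le_rfl

theorem NN_lin (h : Adm g b) {c : ℝ} (hc : Tendsto (fun T : ℝ => NN g b T / T) atTop (𝓝 c)) :
    ∃ K : ℝ, 0 ≤ K ∧ ∀ T : ℝ, 1 ≤ T → NN g b T ≤ K * T := by
  have h1 := hc.eventually_lt_const (show c < c + 1 by linarith)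
  obtain ⟨T0, hT0⟩ := eventually_atTop.1 h1
  refine ⟨|c + 1| + NN g b T0, add_nonneg (abs_nonneg _) (NN_nonneg h _), fun T hT => ?_⟩
  have hTpos : 0 < T := by linarith
  have hN := NN_nonneg h T0
  by_cases hcase : T0 ≤ T
  · have h2 := hT0 T hcase
    rw [div_lt_iff₀ hTpos] at h2
    have h3 : (c + 1) * T ≤ |c + 1| * T := mul_le_mul_of_nonneg_right (le_abs_self _) hTpos.le
    have h4 : 0 ≤ NN g b T0 * T := mul_nonneg hN hTpos.le
    linarith
  · push Not at hcase
    have h2 := NN_mono h hcase.le
    have h3 : NN g b T0 * 1 ≤ NN g b T0 * T := mul_le_mul_of_nonneg_left hT hN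
    have h4 : 0 ≤ |c + 1| * T := mul_nonneg (abs_nonneg _) hTpos.le
    linarith

/-- the tail -/
theorem tail (h : Adm g b) {K : ℝ} (hK : ∀ T : ℝ, 1 ≤ T → NN g b T ≤ K * T) (R : ℝ) (hR : 1 ≤ R)
    (F : Finset ι) (hF : ∀ i ∈ F, R < g i) : ∑ i ∈ F, b i / g i ^ 2 ≤ 2 * K / R := by
  have hR0 : 0 < R := by linarith
  have hint3 : IntegrableOn (fun u : ℝ => u ^ (-3 : ℝ)) (Ioi R) :=
    integrableOn_Ioi_rpow_of_lt (by norm_num) hR0
  have hint2 : IntegrableOn (fun u : ℝ => u ^ (-2 : ℝ)) (Ioi R) :=
    integrableOn_Ioi_rpow_of_lt (by norm_num) hR0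
  have h1 : ∀ i ∈ F, b i / g i ^ 2 =
      ∫ u in Ioi R, (Ioi (g i)).indicator (fun u : ℝ => 2 * b i * u ^ (-3 : ℝ)) u := by
    intro i hi
    have hg := h.pos i
    rw [setIntegral_indicator measurableSet_Ioi]
    have e2 : Ioi R ∩ Ioi (g i) = Ioi (g i) := by
      apply Set.inter_eq_self_of_subset_right
      exact Set.Ioi_subset_Ioi (hF i hi).le
    rw [e2, integral_const_mul, integral_Ioi_rpow_of_lt (by norm_num) hg]
    have e3 : (-3 : ℝ) + 1 = -2 := by norm_num
    rw [e3, Real.rpow_neg hg.le, Real.rpow_two]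
    field_simp
  rw [Finset.sum_congr rfl h1, ← integral_finsetSum]
  · have h2 : ∫ u in Ioi R, 2 * K * u ^ (-2 : ℝ) = 2 * K / R := by
      rw [integral_const_mul, integral_Ioi_rpow_of_lt (by norm_num) hR0]
      have e3 : (-2 : ℝ) + 1 = -1 := by norm_num
      rw [e3, Real.rpow_neg_one]
      field_simp
    rw [← h2]
    apply setIntegral_mono_on _ (hint2.const_mul _) measurableSet_Ioi
    · intro u hu
      have hu' : R < u := hu
      have hu0 : 0 < u := by linarith
      have h3 : ∑ i ∈ F, (Ioi (g i)).indicator (fun u : ℝ => 2 * b i * u ^ (-3 : ℝ)) u ≤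
          2 * NN g b u * u ^ (-3 : ℝ) := by
        have h4 : ∑ i ∈ F, (Ioi (g i)).indicator (fun u : ℝ => 2 * b i * u ^ (-3 : ℝ)) u ≤
            ∑ i ∈ F, 2 * u ^ (-3 : ℝ) * (if g i ≤ u then b i else 0) := by
          refine Finset.sum_le_sum fun i _ => ?_
          have hb := h.nonneg i
          have hup : 0 ≤ u ^ (-3 : ℝ) := Real.rpow_nonneg hu0.le _
          by_cases hgu : g i < u
          · rw [Set.indicator_of_mem (Set.mem_Ioi.2 hgu), if_pos hgu.le]
            apply le_of_eq
            ring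
          · rw [Set.indicator_of_notMem (fun hh => hgu (Set.mem_Ioi.1 hh))]
            apply mul_nonneg (by positivity)
            split_ifs
            · exact hb
            · exact le_rfl
        refine h4.trans ?_
        rw [← Finset.mul_sum]
        have h5 : ∑ i ∈ F, (if g i ≤ u then b i else 0) ≤ NN g b u := by
          unfold NN
          apply (NN_summable h u).sum_le_tsum
          intro i _
          have := h.nonneg i
          split_ifs
          · exact this
          · exact le_rfl
        calc 2 * u ^ (-3 : ℝ) * ∑ i ∈ F, (if g i ≤ u then b i else 0) ≤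
            2 * u ^ (-3 : ℝ) * NN g b u := by
              apply mul_le_mul_of_nonneg_left h5
              have : 0 ≤ u ^ (-3 : ℝ) := Real.rpow_nonneg hu0.le _
              positivity
          _ = 2 * NN g b u * u ^ (-3 : ℝ) := by ring
      refine h3.trans ?_
      have h6 := hK u (by linarith)
      have h7 : u ^ (-2 : ℝ) = u * u ^ (-3 : ℝ) := by
        have : (-2 : ℝ) = 1 + -3 := by norm_num
        rw [this, Real.rpow_add hu0, Real.rpow_one]
      rw [h7]
      have hup : 0 ≤ u ^ (-3 : ℝ) := Real.rpow_nonneg hu0.le _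
      calc 2 * NN g b u * u ^ (-3 : ℝ) ≤ 2 * (K * u) * u ^ (-3 : ℝ) := by
            apply mul_le_mul_of_nonneg_right _ hup
            linarith
        _ = 2 * K * (u * u ^ (-3 : ℝ)) := by ring
    · apply integrable_finsetSum
      intro i _
      exact (hint3.const_mul _).indicator measurableSet_Ioi
  · intro i _
    exact (hint3.const_mul _).indicator measurableSet_Ioi

/-- the part of the `i` with `g i y ≤ X` -/
theorem near_part (h : Adm g b) {c K : ℝ} (hc : Tendsto (fun T : ℝ => NN g b T / T) atTop (𝓝 c))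
    (_hK0 : 0 ≤ K) (hK : ∀ T : ℝ, 1 ≤ T → NN g b T ≤ K * T) (X : ℝ) (hX : 0 < X) :
    Tendsto (fun y : ℝ => y * ∑' i, (if g i ≤ X / y then ff (g i * y) * b i else 0)) (𝓝[>] 0)
      (𝓝 (c * ∫ u in Ioc 0 X, ff u)) := by
  -- the limit of `y N(u / y)`
  have hN : ∀ u : ℝ, 0 < u → Tendsto (fun y : ℝ => y * NN g b (u / y)) (𝓝[>] 0) (𝓝 (c * u)) := by
    intro u hu
    have h1 : Tendsto (fun y : ℝ => u / y) (𝓝[>] 0) atTop := by
      have := (tendsto_inv_nhdsGT_zero (𝕜 := ℝ)).const_mul_atTop hu
      simpa [div_eq_mul_inv] using this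
    have h2 := (hc.comp h1).mul_const u
    refine h2.congr' ?_
    filter_upwards [self_mem_nhdsWithin] with y hy
    have hy0 : (0 : ℝ) < y := hy
    simp only [Function.comp]
    field_simp
  -- the formula
  have hform : ∀ y : ℝ, 0 < y → ∑' i, (if g i ≤ X / y then ff (g i * y) * b i else 0) =
      ff X * NN g b (X / y) - ∫ u in Ioc 0 X, fd u * NN g b (u / y) := by
    intro y hy
    set F : Finset ι := (h.fin (X / y)).toFinset with hF
    have hmem : ∀ i, i ∈ F ↔ g i ≤ X / y := by
      intro i
      rw [hF, Set.Finite.mem_toFinset]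
      rfl
    have e1 : ∑' i, (if g i ≤ X / y then ff (g i * y) * b i else 0) = ∑ i ∈ F, ff (g i * y) * b i := by
      rw [tsum_eq_sum (s := F)]
      · exact Finset.sum_congr rfl fun i hi => if_pos ((hmem i).1 hi)
      · intro i hi
        exact if_neg fun hh => hi ((hmem i).2 hh)
    have e2 : ∀ u : ℝ, u ≤ X → NN g b (u / y) = ∑ i ∈ F, (if g i * y ≤ u then b i else 0) := by
      intro u hu
      unfold NN
      rw [tsum_eq_sum (s := F)]
      · refine Finset.sum_congr rfl fun i _ => ?_
        by_cases hh : g i ≤ u / y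
        · rw [if_pos hh, if_pos ((le_div_iff₀ hy).1 hh)]
        · rw [if_neg hh, if_neg fun hk => hh ((le_div_iff₀ hy).2 hk)]
      · intro i hi
        apply if_neg
        intro hh
        apply hi
        rw [hmem]
        exact hh.trans (div_le_div_of_nonneg_right hu hy.le)
    have e3 : ∫ u in Ioc 0 X, fd u * NN g b (u / y) =
        ∑ i ∈ F, b i * ∫ u in Ioc 0 X, (if g i * y ≤ u then fd u else 0) := by
      have e4 : ∫ u in Ioc 0 X, fd u * NN g b (u / y) =
          ∫ u in Ioc 0 X, ∑ i ∈ F, b i * (if g i * y ≤ u then fd u else 0) := by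
        refine setIntegral_congr_fun measurableSet_Ioc fun u hu => ?_
        rw [e2 u hu.2, Finset.mul_sum]
        refine Finset.sum_congr rfl fun i _ => ?_
        split_ifs
        · ring
        · ring
      rw [e4, integral_finsetSum]
      · exact Finset.sum_congr rfl fun i _ => integral_const_mul _ _
      · intro i _
        apply Integrable.const_mul
        have : (fun u => if g i * y ≤ u then fd u else 0) = (Ici (g i * y)).indicator fd := by
          ext u
          rw [Set.indicator_apply]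
          rfl
        rw [this]
        exact (fd_integrable X).indicator measurableSet_Ici
    rw [e1, e3, e2 X le_rfl, Finset.mul_sum, ← Finset.sum_sub_distrib]
    refine Finset.sum_congr rfl fun i hi => ?_
    have hgi : g i * y ≤ X := (le_div_iff₀ hy).1 ((hmem i).1 hi)
    rw [if_pos hgi, ftc (mul_pos (h.pos i) hy) hgi]
    ring
  -- the limit of the integral
  have hI : Tendsto (fun y : ℝ => ∫ u in Ioc 0 X, fd u * (y * NN g b (u / y))) (𝓝[>] 0)
      (𝓝 (∫ u in Ioc 0 X, fd u * (c * u))) := by
    apply tendsto_integral_filter_of_dominated_convergence (fun _ => 5 * (K * X))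
    · filter_upwards [self_mem_nhdsWithin] with y hy
      have hy0 : (0 : ℝ) < y := hy
      apply Measurable.aestronglyMeasurable
      apply fd_meas.mul
      apply Measurable.const_mul
      exact (NN_mono h).measurable.comp (measurable_id.div_const y)
    · have hsmall : ∀ᶠ y in 𝓝[>] (0 : ℝ), y ≤ X := by
        have : ∀ᶠ y in 𝓝 (0 : ℝ), y ≤ X := (eventually_lt_nhds hX).mono fun y hy => hy.le
        exact this.filter_mono nhdsWithin_le_nhds
      filter_upwards [self_mem_nhdsWithin, hsmall] with y hy hyX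
      have hy0 : (0 : ℝ) < y := hy
      refine (ae_restrict_iff' measurableSet_Ioc).2 (Eventually.of_forall fun u hu => ?_)
      rw [norm_mul, norm_mul, Real.norm_of_nonneg (NN_nonneg h _), Real.norm_of_nonneg hy0.le,
        Real.norm_eq_abs]
      apply mul_le_mul (fd_bound hu.1) _ (mul_nonneg hy0.le (NN_nonneg h _)) (by norm_num)
      calc y * NN g b (u / y) ≤ y * NN g b (X / y) :=
            mul_le_mul_of_nonneg_left (NN_mono h (div_le_div_of_nonneg_right hu.2 hy0.le)) hy0.le
        _ ≤ y * (K * (X / y)) := by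
            apply mul_le_mul_of_nonneg_left _ hy0.le
            apply hK
            rw [le_div_iff₀ hy0]
            linarith
        _ = K * X := by field_simp
    · exact integrable_const _
    · refine (ae_restrict_iff' measurableSet_Ioc).2 (Eventually.of_forall fun u hu => ?_)
      exact (hN u hu.1).const_mul _
  have hlim := ((hN X hX).const_mul (ff X)).sub hI
  have hval : ff X * (c * X) - ∫ u in Ioc 0 X, fd u * (c * u) = c * ∫ u in Ioc 0 X, ff u := by
    rw [← parts X hX]
    have : ∫ u in Ioc 0 X, fd u * (c * u) = c * ∫ u in Ioc 0 X, fd u * u := by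
      rw [← integral_const_mul]
      congr 1
      ext u
      ring
    rw [this]
    ring
  rw [hval] at hlim
  refine hlim.congr' ?_
  filter_upwards [self_mem_nhdsWithin] with y hy
  have hy0 : (0 : ℝ) < y := hy
  rw [hform y hy0]
  have : ∫ u in Ioc 0 X, fd u * (y * NN g b (u / y)) = y * ∫ u in Ioc 0 X, fd u * NN g b (u / y) := by
    rw [← integral_const_mul]
    congr 1
    ext u
    ring
  rw [this]
  ring

theorem abel : S_KK → S_ABEL := by
  rintro ⟨hKI, hKV⟩ ι g b h c hc
  obtain ⟨K, hK0, hK⟩ := NN_lin h hc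
  set W := ∑' i, wt g b i with hW
  have hW0 : 0 ≤ W := tsum_nonneg fun i => wt_nonneg h i
  -- summability
  have hs2 : ∀ y : ℝ, Summable fun i => ff (g i * y) * (wt g b i / 4) := by
    intro y
    refine Summable.of_nonneg_of_le (fun i => ?_) (fun i => ?_) (h.sum.mul_left (1 / 8))
    · exact mul_nonneg (ff_nonneg _) (by have := wt_nonneg h i; positivity)
    · have h1 := wt_nonneg h i
      have h2 := ff_half (g i * y)
      calc ff (g i * y) * (wt g b i / 4) ≤ 1 / 2 * (wt g b i / 4) :=
            mul_le_mul_of_nonneg_right h2 (by positivity)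
        _ = 1 / 8 * wt g b i := by ring
  have hs2b : ∀ y : ℝ, 0 ≤ ∑' i, ff (g i * y) * (wt g b i / 4) ∧
      ∑' i, ff (g i * y) * (wt g b i / 4) ≤ W / 8 := by
    intro y
    constructor
    · exact tsum_nonneg fun i => mul_nonneg (ff_nonneg _) (by have := wt_nonneg h i; positivity)
    · have e1 : W / 8 = ∑' i, 1 / 8 * wt g b i := by
        rw [tsum_mul_left]
        ring
      rw [e1]
      apply (hs2 y).tsum_le_tsum _ (h.sum.mul_left (1 / 8))
      intro i
      have h1 := wt_nonneg h i
      have h2 := ff_half (g i * y)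
      calc ff (g i * y) * (wt g b i / 4) ≤ 1 / 2 * (wt g b i / 4) :=
            mul_le_mul_of_nonneg_right h2 (by positivity)
        _ = 1 / 8 * wt g b i := by ring
  have hfb : ∀ y : ℝ, 0 < y → ∀ i, ff (g i * y) * b i =
      1 / y ^ 2 * ((1 - Real.cos (g i * y)) * wt g b i) + ff (g i * y) * (wt g b i / 4) := by
    intro y hy i
    have hg := h.pos i
    conv_lhs => rw [wt_mul g b i]
    have e1 : ff (g i * y) * (g i ^ 2 * wt g b i) = 1 / y ^ 2 * ((1 - Real.cos (g i * y)) * wt g b i) := by
      unfold ff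
      field_simp
    rw [mul_add, e1]
  have hs1 : ∀ y : ℝ, 0 < y → Summable fun i => ff (g i * y) * b i := by
    intro y hy
    have : (fun i => ff (g i * y) * b i) = fun i =>
        1 / y ^ 2 * ((1 - Real.cos (g i * y)) * wt g b i) + ff (g i * y) * (wt g b i / 4) :=
      funext (hfb y hy)
    rw [this]
    exact ((term_summable h y).mul_left _).add (hs2 y)
  have hmain : ∀ y : ℝ, 0 < y → Ps g b y / y = y * (∑' i, ff (g i * y) * b i) -
      y * ∑' i, ff (g i * y) * (wt g b i / 4) := by
    intro y hy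
    have e1 : ∑' i, ff (g i * y) * b i = 1 / y ^ 2 * Ps g b y + ∑' i, ff (g i * y) * (wt g b i / 4) := by
      rw [tsum_congr (hfb y hy), Summable.tsum_add ((term_summable h y).mul_left _) (hs2 y),
        tsum_mul_left]
      rfl
    rw [e1]
    field_simp
    ring
  -- splitting
  have hsplit : ∀ X y : ℝ, 0 < y → ∑' i, ff (g i * y) * b i =
      ∑' i, (if g i ≤ X / y then ff (g i * y) * b i else 0) +
      ∑' i, (if g i ≤ X / y then 0 else ff (g i * y) * b i) := by
    intro X y hy
    have hnn : ∀ i, 0 ≤ ff (g i * y) * b i := fun i => mul_nonneg (ff_nonneg _) (h.nonneg i)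
    rw [← Summable.tsum_add]
    · refine tsum_congr fun i => ?_
      split_ifs <;> simp
    · refine Summable.of_nonneg_of_le (fun i => ?_) (fun i => ?_) (hs1 y hy)
      · split_ifs
        · exact hnn i
        · exact le_rfl
      · split_ifs
        · exact le_rfl
        · exact hnn i
    · refine Summable.of_nonneg_of_le (fun i => ?_) (fun i => ?_) (hs1 y hy)
      · split_ifs
        · exact le_rfl
        · exact hnn i
      · split_ifs
        · exact hnn i
        · exact le_rfl
  have htail : ∀ X y : ℝ, 0 < y → y ≤ X → 0 ≤ y * ∑' i, (if g i ≤ X / y then 0 else ff (g i * y) * b i) ∧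
      y * ∑' i, (if g i ≤ X / y then 0 else ff (g i * y) * b i) ≤ 4 * K / X := by
    intro X y hy hyX
    have hX : 0 < X := by linarith
    have hnn : ∀ i, 0 ≤ (if g i ≤ X / y then 0 else ff (g i * y) * b i) := by
      intro i
      split_ifs
      · exact le_rfl
      · exact mul_nonneg (ff_nonneg _) (h.nonneg i)
    constructor
    · exact mul_nonneg hy.le (tsum_nonneg hnn)
    · have h1 : ∑' i, (if g i ≤ X / y then 0 else ff (g i * y) * b i) ≤ 4 * K / X / y := by
        apply Real.tsum_le_of_sum_le hnn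
        intro F
        have hR : 1 ≤ X / y := by
          rw [le_div_iff₀ hy]
          linarith
        have h2 := tail h hK (X / y) hR (F.filter fun i => X / y < g i) fun i hi =>
          (Finset.mem_filter.1 hi).2
        calc ∑ i ∈ F, (if g i ≤ X / y then 0 else ff (g i * y) * b i) ≤
            ∑ i ∈ F.filter fun i => X / y < g i, 2 / y ^ 2 * (b i / g i ^ 2) := by
              rw [Finset.sum_filter]
              refine Finset.sum_le_sum fun i _ => ?_
              by_cases hh : g i ≤ X / y
              · rw [if_pos hh, if_neg (not_lt.2 hh)]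
              · rw [if_neg hh, if_pos (not_le.1 hh)]
                have hg := h.pos i
                have hb := h.nonneg i
                have h3 := ff_two (mul_pos hg hy)
                calc ff (g i * y) * b i ≤ 2 / (g i * y) ^ 2 * b i := mul_le_mul_of_nonneg_right h3 hb
                  _ = 2 / y ^ 2 * (b i / g i ^ 2) := by
                      field_simp
          _ = 2 / y ^ 2 * ∑ i ∈ F.filter fun i => X / y < g i, b i / g i ^ 2 := by
              rw [Finset.mul_sum]
          _ ≤ 2 / y ^ 2 * (2 * K / (X / y)) := mul_le_mul_of_nonneg_left h2 (by positivity)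
          _ = 4 * K / X / y := by
              field_simp
              ring
      calc y * ∑' i, (if g i ≤ X / y then 0 else ff (g i * y) * b i) ≤ y * (4 * K / X / y) :=
            mul_le_mul_of_nonneg_left h1 hy.le
        _ = 4 * K / X := by field_simp
  -- the limit
  rw [Metric.tendsto_nhds]
  intro ε hε
  have hlim1 : Tendsto (fun X : ℝ => c * ∫ u in Ioc 0 X, ff u) atTop (𝓝 (c * (Real.pi / 2))) := by
    apply Tendsto.const_mul
    have h1 := intervalIntegral_tendsto_integral_Ioi (0 : ℝ) hKI (tendsto_id (α := ℝ) (x := atTop))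
    rw [hKV] at h1
    refine h1.congr' ?_
    filter_upwards [eventually_ge_atTop (0 : ℝ)] with X hX
    show ∫ x in (0 : ℝ)..X, (1 - Real.cos x) / x ^ 2 = _
    rw [intervalIntegral.integral_of_le hX]
    rfl
  have hlim2 : Tendsto (fun X : ℝ => 4 * K / X) atTop (𝓝 0) := tendsto_const_nhds.div_atTop tendsto_id
  have ev1 := (Metric.tendsto_nhds.1 hlim1) (ε / 4) (by linarith)
  have ev2 := hlim2.eventually_lt_const (show 0 < ε / 4 by linarith)
  obtain ⟨X, hX1, hX2, hX3⟩ := (ev1.and (ev2.and (eventually_ge_atTop (1 : ℝ)))).exists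
  have hX0 : 0 < X := by linarith
  have ev3 := (Metric.tendsto_nhds.1 (near_part h hc hK0 hK X hX0)) (ε / 4) (by linarith)
  have ev4 : ∀ᶠ y in 𝓝[>] (0 : ℝ), y ≤ X := by
    have : ∀ᶠ y in 𝓝 (0 : ℝ), y ≤ X := (eventually_lt_nhds hX0).mono fun y hy => hy.le
    exact this.filter_mono nhdsWithin_le_nhds
  have ev5 : ∀ᶠ y in 𝓝[>] (0 : ℝ), y * (W / 8) < ε / 4 := by
    have h1 : Tendsto (fun y : ℝ => y * (W / 8)) (𝓝[>] 0) (𝓝 (0 * (W / 8))) :=
      ((continuous_id.mul continuous_const).tendsto 0).mono_left nhdsWithin_le_nhds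
    rw [zero_mul] at h1
    exact h1.eventually_lt_const (by linarith)
  filter_upwards [ev3, ev4, ev5, self_mem_nhdsWithin] with y h3 h4 h5 hy
  have hy0 : (0 : ℝ) < y := hy
  rw [Real.dist_eq] at h3 hX1 ⊢
  rw [hmain y hy0, hsplit X y hy0]
  obtain ⟨t1, t2⟩ := htail X y hy0 h4
  obtain ⟨r1, r2⟩ := hs2b y
  have r3 : 0 ≤ y * ∑' i, ff (g i * y) * (wt g b i / 4) := mul_nonneg hy0.le r1
  have r4 : y * ∑' i, ff (g i * y) * (wt g b i / 4) ≤ y * (W / 8) := mul_le_mul_of_nonneg_left r2 hy0.le
  rw [abs_lt] at h3 hX1 ⊢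
  constructor <;> linarith [h3.1, h3.2, hX1.1, hX1.2]

end Pool.Agent.P8H20.SB
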